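import Pool.Agent.MNE.StmtsA

/-! MP_d2d93c_nt, THEOREM E, row RG2 (helper62): region II, the summand of `C` dominant. -/

set_option autoImplicit false

namespace Pool.Agent.MNE.H62

open Pool.Agent.MNE

/-- `B^16 ≤ C^15` makes `g` small -/
theorem g_small {f g : ℕ} (hf : 81 ≤ f) (hgf : g ≤ f)
    (h1 : (2 * f * g) ^ 16 ≤ (f ^ 2 + g ^ 2) ^ 15) : 3 * g ^ 2 ≤ f ^ 2 := by
  have hf0 : 0 < f := by omega
  have e1 : (f ^ 2 + g ^ 2) ^ 15 ≤ (2 * f ^ 2) ^ 15 := by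
    refine Nat.pow_le_pow_left ?_ 15
    have : g ^ 2 ≤ f ^ 2 := Nat.pow_le_pow_left hgf 2
    omega
  have e2 : 2 ^ 15 * f ^ 16 * (2 * g ^ 16) ≤ 2 ^ 15 * f ^ 16 * f ^ 14 := by
    calc 2 ^ 15 * f ^ 16 * (2 * g ^ 16) = (2 * f * g) ^ 16 := by ring
      _ ≤ (f ^ 2 + g ^ 2) ^ 15 := h1
      _ ≤ (2 * f ^ 2) ^ 15 := e1
      _ = 2 ^ 15 * f ^ 16 * f ^ 14 := by ring
  have e3 : 2 * g ^ 16 ≤ f ^ 14 := Nat.le_of_mul_le_mul_left e2 (by positivity)
  have e4 : (g ^ 8) ^ 2 ≤ (f ^ 7) ^ 2 := by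
    rw [← pow_mul, ← pow_mul]
    norm_num
    omega
  have e5 : g ^ 8 ≤ f ^ 7 := (Nat.pow_le_pow_iff_left two_ne_zero).1 e4
  have e6 : (3 * g ^ 2) ^ 4 ≤ (f ^ 2) ^ 4 := by
    calc (3 * g ^ 2) ^ 4 = 81 * g ^ 8 := by ring
      _ ≤ f * f ^ 7 := Nat.mul_le_mul hf e5
      _ = (f ^ 2) ^ 4 := by ring
  exact (Nat.pow_le_pow_iff_left (by norm_num)).1 e6

theorem exp_lt {B C x y : ℕ} (hC : 1 ≤ C) (h1 : B ^ 16 ≤ C ^ 15)
    (hc : (C ^ x) ^ 43 < (B ^ y) ^ 50) : 688 * x < 750 * y := by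
  by_contra hn
  have hn' : 750 * y ≤ 688 * x := not_lt.1 hn
  have e1 : ((B ^ y) ^ 50) ^ 16 ≤ ((C ^ x) ^ 43) ^ 16 := by
    calc ((B ^ y) ^ 50) ^ 16 = (B ^ 16) ^ (50 * y) := by
          rw [← pow_mul, ← pow_mul, ← pow_mul]; congr 1; ring
      _ ≤ (C ^ 15) ^ (50 * y) := Nat.pow_le_pow_left h1 _
      _ = C ^ (750 * y) := by rw [← pow_mul]; congr 1; ring
      _ ≤ C ^ (688 * x) := Nat.pow_le_pow_right hC hn'
      _ = ((C ^ x) ^ 43) ^ 16 := by rw [← pow_mul, ← pow_mul]; congr 1; ring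
  exact absurd hc (not_lt.2 ((Nat.pow_le_pow_iff_left (by norm_num)).1 e1))

theorem rg2 (hB : BasStmt) (hF : ClfStmt) : Rg2Stmt := by
  intro f g x y z h hf hm h1 h2
  obtain ⟨-, hxz, -, -, hA3, hBC, hAC, -, -, hAC2, -, -, -, -, -, -, hfA, -⟩ := hB f g x y z h
  have hgf : g ≤ f := by have := h.hd; omega
  have hf0 : 0 < f := by omega
  have hg3 := g_small (by omega : 81 ≤ f) hgf h1
  have heq := h.eq
  have hg2 : g ^ 2 ≤ f ^ 2 := Nat.pow_le_pow_left hgf 2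
  obtain ⟨A, hA⟩ : ∃ A, A = f ^ 2 - g ^ 2 := ⟨_, rfl⟩
  obtain ⟨C, hC⟩ : ∃ C, C = f ^ 2 + g ^ 2 := ⟨_, rfl⟩
  obtain ⟨B, hBe⟩ : ∃ B, B = 2 * f * g := ⟨_, rfl⟩
  rw [← hA] at heq hA3 hAC hAC2 hfA
  rw [← hC] at heq h1 h2 hBC hAC hAC2 ⊢
  rw [← hBe] at heq h1 h2 hBC ⊢
  by_contra hcc
  have hc : (C ^ x) ^ 43 < (B ^ y) ^ 50 := not_le.1 hcc
  have hA0 : 0 < A := by
    have : 0 < 3 * f := by omega
    omega
  have hC0 : 0 < C := by omega
  have hxy := exp_lt hC0 h1 hc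
  have hCA : C ≤ 2 * A := by omega
  -- `y ≤ 2 x`
  have hCf : C ≤ 2 * f ^ 2 := by omega
  have hy2 : y ≤ 2 * x := by
    have e1 : (2 * f) ^ y ≤ (2 * f) ^ (2 * x) := by
      calc (2 * f) ^ y ≤ B ^ y := by
            refine Nat.pow_le_pow_left ?_ y
            rw [hBe]
            exact Nat.le_mul_of_pos_right _ h.hg
        _ ≤ C ^ x := h2
        _ ≤ ((2 * f) ^ 2) ^ x := by
            refine Nat.pow_le_pow_left ?_ x
            rw [mul_pow]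
            omega
        _ = (2 * f) ^ (2 * x) := (pow_mul _ _ _).symm
    exact (Nat.pow_le_pow_iff_right (by omega)).1 e1
  have hx50 : 50 ≤ x := by
    rcases le_max_iff.1 hm with h3 | h3 <;> omega
  -- the exponent difference
  have hAz : A ^ z ≤ 2 * C ^ x := by omega
  have hdiff : A ^ (z - x) ≤ 2 * 2 ^ x := by
    have e1 : A ^ (z - x) * A ^ x ≤ 2 * 2 ^ x * A ^ x := by
      calc A ^ (z - x) * A ^ x = A ^ z := by
            rw [← pow_add]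
            congr 1
            omega
        _ ≤ 2 * C ^ x := hAz
        _ ≤ 2 * (2 * A) ^ x := Nat.mul_le_mul_left _ (Nat.pow_le_pow_left hCA x)
        _ = 2 * 2 ^ x * A ^ x := by rw [mul_pow]; ring
    exact Nat.le_of_mul_le_mul_right e1 (by positivity)
  obtain ⟨k, hk⟩ : ∃ k, k = x / 5 := ⟨_, rfl⟩
  have hk1 : 1 ≤ k := by omega
  have hdvd : (f : ℤ) ^ y ∣ (A : ℤ) ^ z - (C : ℤ) ^ x := by
    have e1 : (A : ℤ) ^ z - (C : ℤ) ^ x = (B : ℤ) ^ y := by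
      have : ((C ^ x + B ^ y : ℕ) : ℤ) = ((A ^ z : ℕ) : ℤ) := by rw [heq]
      push_cast at this
      linarith
    rw [e1, hBe]
    refine pow_dvd_pow_of_dvd ?_ y
    exact ⟨2 * g, by push_cast; ring⟩
  have hkey := hF A C f x y z k (by exact_mod_cast hA0) (by exact_mod_cast hC0)
    (by exact_mod_cast hf0) (by have : C + A = 2 * f ^ 2 := hAC2
                                have h4 : ((C + A : ℕ) : ℤ) = ((2 * f ^ 2 : ℕ) : ℤ) := by rw [this]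
                                push_cast at h4
                                linarith)
    (Nat.isCoprime_iff_coprime.2 hfA) hk1 (by omega) hxz.le (by omega) hdvd 1 le_rfl
  simp only [Int.cast_natCast, one_pow, mul_one] at hkey
  -- real bounds
  have hf' : (10 : ℝ) ^ 11 ≤ f := by exact_mod_cast hf
  have hfp : (0 : ℝ) < f := by exact_mod_cast hf0
  have hCp : (0 : ℝ) < C := by exact_mod_cast hC0
  have hAr : (A : ℝ) ^ (z - x) ≤ 2 * 2 ^ x := by exact_mod_cast hdiff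
  have hCr : (C : ℝ) ≤ 2 * (f : ℝ) ^ 2 := by exact_mod_cast hCf
  have hCr' : (f : ℝ) ^ 2 ≤ C := by
    have : f ^ 2 ≤ C := by omega
    exact_mod_cast this
  have h3 : 1 + 2 * (f : ℝ) ^ 2 / C ≤ 3 := by
    have : 2 * (f : ℝ) ^ 2 / C ≤ 2 := by
      rw [div_le_iff₀ hCp]
      linarith
    linarith
  have h30 : 0 ≤ 1 + 2 * (f : ℝ) ^ 2 / C := by positivity
  have hup : (f : ℝ) ^ (4 * k) ≤ 2 * (2 * 2 ^ x) * (4 ^ k * (2 * (f : ℝ) ^ 2) ^ k *
      3 ^ (x + k)) := by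
    refine hkey.trans ?_
    gcongr
  have hx5 : x ≤ 5 * k + 4 := by omega
  have hup2 : (f : ℝ) ^ (2 * k) ≤ 5184 * 186624 ^ k := by
    have e1 : (f : ℝ) ^ (2 * k) * (f : ℝ) ^ (2 * k) ≤
        (5184 * 186624 ^ k) * (f : ℝ) ^ (2 * k) := by
      calc (f : ℝ) ^ (2 * k) * (f : ℝ) ^ (2 * k) = (f : ℝ) ^ (4 * k) := by
            rw [← pow_add]
            congr 1
            ring
        _ ≤ _ := hup
        _ = 4 * 6 ^ x * 24 ^ k * (f : ℝ) ^ (2 * k) := by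
            rw [pow_add, mul_pow 2, ← pow_mul]
            have a1 : (6 : ℝ) ^ x = 2 ^ x * 3 ^ x := by rw [← mul_pow]; norm_num
            have a2 : (24 : ℝ) ^ k = 4 ^ k * 2 ^ k * 3 ^ k := by
              rw [← mul_pow, ← mul_pow]; norm_num
            rw [a1, a2]
            ring
        _ ≤ 4 * 6 ^ (5 * k + 4) * 24 ^ k * (f : ℝ) ^ (2 * k) := by
            have : (6 : ℝ) ^ x ≤ 6 ^ (5 * k + 4) := pow_le_pow_right₀ (by norm_num) hx5
            gcongr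
        _ = (5184 * 186624 ^ k) * (f : ℝ) ^ (2 * k) := by
            have a1 : (6 : ℝ) ^ (5 * k + 4) = 7776 ^ k * 1296 := by
              rw [pow_add, pow_mul]; norm_num
            have a2 : (186624 : ℝ) ^ k = 7776 ^ k * 24 ^ k := by
              rw [← mul_pow]; norm_num
            rw [a1, a2]
            ring
    exact le_of_mul_le_mul_right e1 (by positivity)
  have hlow : ((10 : ℝ) ^ 22) ^ k ≤ (f : ℝ) ^ (2 * k) := by
    rw [pow_mul]
    refine pow_le_pow_left₀ (by positivity) ?_ k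
    calc (10 : ℝ) ^ 22 = (10 ^ 11) ^ 2 := by norm_num
      _ ≤ (f : ℝ) ^ 2 := pow_le_pow_left₀ (by positivity) hf' 2
  have hlast : (5184 : ℝ) * 186624 ^ k ≤ (5184 * 186624) ^ k := by
    rw [mul_pow]
    have : (5184 : ℝ) ≤ 5184 ^ k := le_self_pow₀ (by norm_num) (by omega)
    gcongr
  have hfin : ((5184 : ℝ) * 186624) ^ k < ((10 : ℝ) ^ 22) ^ k :=
    pow_lt_pow_left₀ (by norm_num) (by norm_num) (by omega)
  linarith

end Pool.Agent.MNE.H62
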